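import Mathlib
import Pool.Agent.Lib.helper6.PSD

namespace Pool.Agent.Results.MP_5fc97f_co.Ring

open Matrix Pool.Agent.Lib.helper6

/-- connection matrix of the complex whose simplices are enumerated by s -/
def conn {n : ℕ} (s : Fin n → Finset ℕ) : Matrix (Fin n) (Fin n) ℝ :=
  fun i j => if (s i ∩ s j).Nonempty then 1 else 0

def sl : List (List ℕ) := 
  [[0], [1], [2], [3], [4], [5], [6], [7], [8], [0, 3], [1, 4], [2, 5], [0, 6], [1, 7], [2, 8],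
  [3, 6], [4, 7], [5, 8], [0, 3, 6], [1, 4, 7], [2, 5, 8], [3, 7], [4, 8], [5, 6]]

def gl : List (List ℤ) := 
  [[0, 0, 0, 0, 0, 0, 0, 0, 0, 0, 0, 0, 0, 0, 0, -1, 0, 0, 1, 0, 0, 0, 0, 0], [0, 0, 0, 0, 0, 0,
  0, 0, 0, 0, 0, 0, 0, 0, 0, 0, -1, 0, 0, 1, 0, 0, 0, 0], [0, 0, 0, 0, 0, 0, 0, 0, 0, 0, 0, 0, 0,
  0, 0, 0, 0, -1, 0, 0, 1, 0, 0, 0], [0, 0, 0, -1, 0, 0, 0, -1, 0, 0, 0, 0, -1, 0, 0, 0, 0, 0, 1,
  0, 0, 1, 0, 0], [0, 0, 0, 0, -1, 0, 0, 0, -1, 0, 0, 0, 0, -1, 0, 0, 0, 0, 0, 1, 0, 0, 1, 0], [0,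
  0, 0, 0, 0, -1, -1, 0, 0, 0, 0, 0, 0, 0, -1, 0, 0, 0, 0, 0, 1, 0, 0, 1], [0, 0, 0, 0, 0, -1, -1,
  0, 0, -1, 0, 0, 0, 0, 0, 0, 0, 0, 1, 0, 0, 0, 0, 1], [0, 0, 0, -1, 0, 0, 0, -1, 0, 0, -1, 0, 0,
  0, 0, 0, 0, 0, 0, 1, 0, 1, 0, 0], [0, 0, 0, 0, -1, 0, 0, 0, -1, 0, 0, -1, 0, 0, 0, 0, 0, 0, 0,
  0, 1, 0, 1, 0], [0, 0, 0, 0, 0, 0, -1, 0, 0, 0, 0, 0, 1, 0, 0, 1, 0, 0, -1, 0, 0, 0, 0, 0], [0,
  0, 0, 0, 0, 0, 0, -1, 0, 0, 0, 0, 0, 1, 0, 0, 1, 0, 0, -1, 0, 0, 0, 0], [0, 0, 0, 0, 0, 0, 0, 0,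
  -1, 0, 0, 0, 0, 0, 1, 0, 0, 1, 0, 0, -1, 0, 0, 0], [0, 0, 0, -1, 0, 0, 0, 0, 0, 1, 0, 0, 0, 0,
  0, 1, 0, 0, -1, 0, 0, 0, 0, 0], [0, 0, 0, 0, -1, 0, 0, 0, 0, 0, 1, 0, 0, 0, 0, 0, 1, 0, 0, -1,
  0, 0, 0, 0], [0, 0, 0, 0, 0, -1, 0, 0, 0, 0, 0, 1, 0, 0, 0, 0, 0, 1, 0, 0, -1, 0, 0, 0], [-1, 0,
  0, 0, 0, 0, 0, 0, 0, 1, 0, 0, 1, 0, 0, 0, 0, 0, -1, 0, 0, 0, 0, 0], [0, -1, 0, 0, 0, 0, 0, 0, 0,
  0, 1, 0, 0, 1, 0, 0, 0, 0, 0, -1, 0, 0, 0, 0], [0, 0, -1, 0, 0, 0, 0, 0, 0, 0, 0, 1, 0, 0, 1, 0,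
  0, 0, 0, 0, -1, 0, 0, 0], [1, 0, 0, 1, 0, 0, 1, 0, 0, -1, 0, 0, -1, 0, 0, -1, 0, 0, 1, 0, 0, 0,
  0, 0], [0, 1, 0, 0, 1, 0, 0, 1, 0, 0, -1, 0, 0, -1, 0, 0, -1, 0, 0, 1, 0, 0, 0, 0], [0, 0, 1, 0,
  0, 1, 0, 0, 1, 0, 0, -1, 0, 0, -1, 0, 0, -1, 0, 0, 1, 0, 0, 0], [0, 0, 0, 1, 0, 0, 0, 1, 0, 0,
  0, 0, 0, 0, 0, 0, 0, 0, 0, 0, 0, -1, 0, 0], [0, 0, 0, 0, 1, 0, 0, 0, 1, 0, 0, 0, 0, 0, 0, 0, 0,
  0, 0, 0, 0, 0, -1, 0], [0, 0, 0, 0, 0, 1, 1, 0, 0, 0, 0, 0, 0, 0, 0, 0, 0, 0, 0, 0, 0, 0, 0,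
  -1]]

def b1 : List (List ℤ) := 
  [[1953, -46, -46, 0, 0, 0, 0, 0, 0, 0, 0, 0, 0, 0, 0, 461, 0, 0, -461, 0, 0, 0, 0, 0], [0, 1953,
  -47, 0, 0, 0, 0, 0, 0, 0, 0, 0, 0, 0, 0, 11, 461, 0, -11, -461, 0, 0, 0, 0], [0, 0, 1952, 0, 0,
  0, 0, 0, 0, 0, 0, 0, 0, 0, 0, 11, 11, 461, -11, -11, -461, 0, 0, 0], [0, 0, 0, 2172, -41, -41,
  0, 414, 0, 0, 0, 0, 414, 0, 0, 0, 0, 0, -414, 0, 0, -414, 0, 0], [0, 0, 0, 0, 2171, -42, 0, 8,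
  415, 0, 0, 0, 8, 415, 0, 0, 0, 0, -8, -415, 0, -8, -415, 0], [0, 0, 0, 0, 0, 2171, 415, 8, 8, 0,
  0, 0, 8, 8, 415, 0, 0, 0, -8, -8, -415, -8, -8, -415], [0, 0, 0, 0, 0, 0, 2132, -44, -44, 422,
  0, 0, -2, -2, -81, 0, 0, 0, -421, 2, 81, 2, 2, -342], [0, 0, 0, 0, 0, 0, 0, 2131, -45, 9, 422,
  0, -81, -2, -3, 0, 0, 0, 72, -421, 3, -342, 2, -5], [0, 0, 0, 0, 0, 0, 0, 0, 2131, 9, 9, 422,
  -3, -81, -3, 0, 0, 0, -6, 72, -419, -6, -342, -6], [0, 0, 0, 0, 0, 0, 0, 0, 0, 1907, -49, -49,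
  -471, 1, 18, -472, 0, 0, 565, 1, -16, 1, 1, 76], [0, 0, 0, 0, 0, 0, 0, 0, 0, 0, 1907, -50, 6,
  -471, 1, -12, -472, 0, -1, 565, 1, 76, 1, 3], [0, 0, 0, 0, 0, 0, 0, 0, 0, 0, 0, 1906, -11, 5,
  -471, -12, -12, -472, 16, -1, 565, 3, 76, 3], [0, 0, 0, 0, 0, 0, 0, 0, 0, 0, 0, 0, 1848, -49,
  -49, -607, 1, -3, 727, -18, 1, 78, 2, 21], [0, 0, 0, 0, 0, 0, 0, 0, 0, 0, 0, 0, 0, 1847, -50,
  -19, -608, 1, 20, 727, -18, 23, 78, 3], [0, 0, 0, 0, 0, 0, 0, 0, 0, 0, 0, 0, 0, 0, 1847, -15,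
  -19, -608, 2, 20, 727, 5, 23, 79], [0, 0, 0, 0, 0, 0, 0, 0, 0, 0, 0, 0, 0, 0, 0, 1735, -65, -65,
  1049, 9, 9, 29, 3, 29], [0, 0, 0, 0, 0, 0, 0, 0, 0, 0, 0, 0, 0, 0, 0, 0, 1734, -67, 48, 1050, 9,
  30, 29, 4], [0, 0, 0, 0, 0, 0, 0, 0, 0, 0, 0, 0, 0, 0, 0, 0, 0, 1733, 50, 50, 1052, 5, 30, 30],
  [0, 0, 0, 0, 0, 0, 0, 0, 0, 0, 0, 0, 0, 0, 0, 0, 0, 0, 629, -209, -209, -376, -24, -376], [0, 0,
  0, 0, 0, 0, 0, 0, 0, 0, 0, 0, 0, 0, 0, 0, 0, 0, 0, 593, -295, -530, -407, -158], [0, 0, 0, 0, 0,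
  0, 0, 0, 0, 0, 0, 0, 0, 0, 0, 0, 0, 0, 0, 0, 515, -486, -702, -702], [0, 0, 0, 0, 0, 0, 0, 0, 0,
  0, 0, 0, 0, 0, 0, 0, 0, 0, 0, 0, 0, 1938, -343, -343], [0, 0, 0, 0, 0, 0, 0, 0, 0, 0, 0, 0, 0,
  0, 0, 0, 0, 0, 0, 0, 0, 0, 1907, -410], [0, 0, 0, 0, 0, 0, 0, 0, 0, 0, 0, 0, 0, 0, 0, 0, 0, 0,
  0, 0, 0, 0, 0, 1863]]

def b2 : List (List ℤ) := 
  [[190, 0, 0, 0, 0, 0, 0, 0, 0, 0, 0, 0, 0, 0, 0, -53, 0, 0, 53, 0, 0, 0, 0, 0], [0, 190, 0, 0,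
  0, 0, 0, 0, 0, 0, 0, 0, 0, 0, 0, 0, -53, 0, 0, 53, 0, 0, 0, 0], [0, 0, 190, 0, 0, 0, 0, 0, 0, 0,
  0, 0, 0, 0, 0, 0, 0, -53, 0, 0, 53, 0, 0, 0], [0, 0, 0, 161, 0, 0, 0, -62, 0, 0, 0, 0, -62, 0,
  0, 0, 0, 0, 62, 0, 0, 62, 0, 0], [0, 0, 0, 0, 161, 0, 0, 0, -62, 0, 0, 0, 0, -62, 0, 0, 0, 0, 0,
  62, 0, 0, 62, 0], [0, 0, 0, 0, 0, 161, -62, 0, 0, 0, 0, 0, 0, 0, -62, 0, 0, 0, 0, 0, 62, 0, 0,
  62], [0, 0, 0, 0, 0, 0, 149, 0, 0, -67, 0, 0, 0, 0, -26, 0, 0, 0, 67, 0, 26, 0, 0, 93], [0, 0,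
  0, 0, 0, 0, 0, 149, 0, 0, -67, 0, -26, 0, 0, 0, 0, 0, 26, 67, 0, 93, 0, 0], [0, 0, 0, 0, 0, 0,
  0, 0, 149, 0, 0, -67, 0, -26, 0, 0, 0, 0, 0, 26, 67, 0, 93, 0], [0, 0, 0, 0, 0, 0, 0, 0, 0, 177,
  0, 0, 56, 0, -10, 56, 0, 0, -31, 0, 10, 0, 0, 35], [0, 0, 0, 0, 0, 0, 0, 0, 0, 0, 177, 0, -10,
  56, 0, 0, 56, 0, 10, -31, 0, 35, 0, 0], [0, 0, 0, 0, 0, 0, 0, 0, 0, 0, 0, 177, 0, -10, 56, 0, 0,
  56, 0, 10, -31, 0, 35, 0], [0, 0, 0, 0, 0, 0, 0, 0, 0, 0, 0, 0, 168, 3, 3, 41, 3, 0, -22, 9, -3,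
  39, 0, -12], [0, 0, 0, 0, 0, 0, 0, 0, 0, 0, 0, 0, 0, 168, 3, -1, 41, 3, -3, -22, 9, -13, 39, 0],
  [0, 0, 0, 0, 0, 0, 0, 0, 0, 0, 0, 0, 0, 0, 168, 3, -1, 41, 9, -3, -22, -1, -13, 40], [0, 0, 0,
  0, 0, 0, 0, 0, 0, 0, 0, 0, 0, 0, 0, 168, -1, -1, -27, -2, -2, -10, 0, -10], [0, 0, 0, 0, 0, 0,
  0, 0, 0, 0, 0, 0, 0, 0, 0, 0, 168, -1, -2, -27, -2, -10, -10, 0], [0, 0, 0, 0, 0, 0, 0, 0, 0, 0,
  0, 0, 0, 0, 0, 0, 0, 168, -2, -2, -27, 0, -10, -10], [0, 0, 0, 0, 0, 0, 0, 0, 0, 0, 0, 0, 0, 0,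
  0, 0, 0, 0, 178, -8, -8, -34, 1, -34], [0, 0, 0, 0, 0, 0, 0, 0, 0, 0, 0, 0, 0, 0, 0, 0, 0, 0, 0,
  178, -8, -35, -34, 0], [0, 0, 0, 0, 0, 0, 0, 0, 0, 0, 0, 0, 0, 0, 0, 0, 0, 0, 0, 0, 178, -2,
  -36, -36], [0, 0, 0, 0, 0, 0, 0, 0, 0, 0, 0, 0, 0, 0, 0, 0, 0, 0, 0, 0, 0, 89, -9, -9], [0, 0,
  0, 0, 0, 0, 0, 0, 0, 0, 0, 0, 0, 0, 0, 0, 0, 0, 0, 0, 0, 0, 89, -10], [0, 0, 0, 0, 0, 0, 0, 0,
  0, 0, 0, 0, 0, 0, 0, 0, 0, 0, 0, 0, 0, 0, 0, 88]]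

def xl : List ℤ := 
  [-5, -3, 8, -4, -4, 8, -5, -2, 7, 8, 5, -13, 8, 5, -13, 8, 5, -13, -12, -8, 20, -1, 1, 0]

def s0 (i : Fin 24) : Finset ℕ := (sl.getD i []).toFinset
def tb (l : List (List ℤ)) : Matrix (Fin 24) (Fin 24) ℤ := fun i j => (l.getD i []).getD j 0
def cz : Matrix (Fin 24) (Fin 24) ℤ := fun i j => if (s0 i ∩ s0 j).Nonempty then 1 else 0
def M1 : Matrix (Fin 24) (Fin 24) ℤ := fun i j =>
  90000 * ((if i = j then 44 else 0) - 10 * tb gl i j - if i.1 / 3 = j.1 / 3 then 1 else 0)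
def M2 : Matrix (Fin 24) (Fin 24) ℤ := fun i j => 10000 * ((if i = j then 4 else 0) + tb gl i j)
def rot (i : Fin 24) : Fin 24 := ⟨i.1 / 3 * 3 + (i.1 + 1) % 3, by omega⟩
noncomputable def g : Matrix (Fin 24) (Fin 24) ℝ := (tb gl).map Int.cast

lemma inv : cz * tb gl = 1 := by decide +kernel
lemma gsym : ∀ i j, tb gl i j = tb gl j i := by decide +kernel
lemma grot : ∀ i j, tb gl (rot i) (rot j) = tb gl i j := by decide +kernel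
lemma rot3 : ∀ i, rot (rot (rot i)) = i := by decide +kernel
lemma blk : ∀ i j : Fin 24, (if i.1 / 3 = j.1 / 3 then (1 : ℤ) else 0) =
    (if j = i then 1 else 0) + (if j = rot i then 1 else 0) + if j = rot (rot i) then 1 else 0 := by
  decide +kernel
lemma c1 : ∀ i, ∑ j, |M1 i j - ∑ k, tb b1 k i * tb b1 k j| ≤
    2 * (M1 i i - ∑ k, tb b1 k i * tb b1 k i) := by decide +kernel
lemma c2 : ∀ i, ∑ j, |M2 i j - ∑ k, tb b2 k i * tb b2 k j| ≤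
    2 * (M2 i i - ∑ k, tb b2 k i * tb b2 k i) := by decide +kernel
lemma c3 : 41 * ∑ i : Fin 24, xl.getD i 0 * xl.getD i 0 <
    10 * ∑ i : Fin 24, xl.getD i 0 * ∑ j : Fin 24, tb gl i j * xl.getD j 0 := by decide +kernel

lemma conn_inv : (conn s0)⁻¹ = g := by
  apply inv_eq_right_inv
  have h := congrArg (Int.castRingHom ℝ).mapMatrix inv
  rw [map_mul, map_one] at h
  have e : conn s0 = (Int.castRingHom ℝ).mapMatrix cz := by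
    ext i j
    simp [conn, cz]
  rw [e]
  exact h

lemma gH : g.IsHermitian := by
  ext i j; simp [g, gsym i j]

lemma dpos {v : Fin 24 → ℝ} (h : v ≠ 0) : 0 < v ⬝ᵥ v :=
  lt_of_le_of_ne (Finset.sum_nonneg fun _ _ => mul_self_nonneg _)
    fun e => h (dotProduct_self_eq_zero.mp e.symm)

lemma low {m : ℝ} {v : Fin 24 → ℝ} (hv : v ≠ 0) (h : g *ᵥ v = m • v) : -4 ≤ m := by
  have h1 := quad_nonneg_of_cert M2 (tb b2) (fun i j => by simp [M2, gsym i j, eq_comm]) c2 v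
  have e : M2.map (Int.cast : ℤ → ℝ) = (10000 : ℝ) • ((4 : ℝ) • (1 : Matrix _ _ ℝ) + g) := by
    ext i j; simp [M2, g, one_apply]
  rw [e, smul_mulVec, add_mulVec, smul_mulVec, one_mulVec, h, ← add_smul, smul_smul,
    dotProduct_smul, smul_eq_mul] at h1
  have := dpos hv
  nlinarith

lemma symup {m : ℝ} {v : Fin 24 → ℝ} (hv : v ≠ 0) (h : g *ᵥ v = m • v) (hs : ∀ i, v (rot i) = v i) :
    m ≤ 41 / 10 := by
  have h1 := quad_nonneg_of_cert M1 (tb b1) (fun i j => by simp [M1, gsym i j, eq_comm]) c1 v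
  have e : M1.map (Int.cast : ℤ → ℝ) *ᵥ v = (90000 * (41 - 10 * m)) • v := by
    ext i
    have := congrFun h i
    simp only [g, mulVec, dotProduct, map_apply, Pi.smul_apply, smul_eq_mul] at this
    simp only [M1, blk, mulVec, dotProduct, map_apply]
    push_cast
    simp only [mul_assoc, ← Finset.mul_sum, sub_mul, add_mul, Finset.sum_sub_distrib,
      Finset.sum_add_distrib, this, ite_mul, zero_mul, one_mul, Finset.sum_ite_eq,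
      Finset.sum_ite_eq', Finset.mem_univ, if_true, hs, Pi.smul_apply, smul_eq_mul]
    ring
  rw [e, dotProduct_smul, smul_eq_mul] at h1
  have := dpos hv
  nlinarith

lemma big : ∃ i, 41 / 10 < gH.eigenvalues i := by
  by_contra hn
  push Not at hn
  have hp : ((41 / 10 : ℝ) • (1 : Matrix (Fin 24) (Fin 24) ℝ) - g).PosSemidef := by
    have e : (41 / 10 : ℝ) • (1 : Matrix (Fin 24) (Fin 24) ℝ) - g =
        gH.eigenvectorUnitary.1 * diagonal (fun i => 41 / 10 - gH.eigenvalues i) *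
          gH.eigenvectorUnitary.1ᴴ := by
      have h2 : (diagonal (fun i => 41 / 10 - gH.eigenvalues i) : Matrix (Fin 24) (Fin 24) ℝ)
          = (41 / 10 : ℝ) • (1 : Matrix _ _ ℝ) - diagonal (RCLike.ofReal ∘ gH.eigenvalues) := by
        ext i j
        by_cases h : i = j
        · subst h; simp
        · simp [h]
      have h3 := gH.spectral_theorem
      rw [Unitary.conjStarAlgAut_apply] at h3
      rw [h2, mul_sub, sub_mul, mul_smul_comm, mul_one, smul_mul_assoc, ← star_eq_conjTranspose,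
        ← h3, Unitary.mul_star_self_of_mem gH.eigenvectorUnitary.2]
    rw [e]
    exact (PosSemidef.diagonal fun i => sub_nonneg.mpr (hn i)).mul_mul_conjTranspose_same _
  have h1 := hp.dotProduct_mulVec_nonneg fun i => (xl.getD i 0 : ℝ)
  have h2 : ((41 * ∑ i : Fin 24, xl.getD i 0 * xl.getD i 0 : ℤ) : ℝ) <
    ((10 * ∑ i : Fin 24, xl.getD i 0 * ∑ j : Fin 24, tb gl i j * xl.getD j 0 : ℤ) : ℝ) := by
    exact_mod_cast c3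
  rw [sub_mulVec, smul_mulVec, one_mulVec, dotProduct_sub, dotProduct_smul] at h1
  simp only [star_trivial, dotProduct, mulVec, g, map_apply, smul_eq_mul] at h1
  push_cast at h2
  linarith

theorem result : ∃ (n : ℕ) (s : Fin n → Finset ℕ), Function.Injective s ∧ (∀ i, (s i).Nonempty) ∧
    (∀ i, ∀ t ⊆ s i, t.Nonempty → ∃ j, s j = t) ∧
    (SimpleGraph.fromRel fun i j => (s i ∩ s j).Nonempty).Connected ∧
    ∃ l : ℝ, IsGreatest (spectrum ℝ (conn s)⁻¹) l ∧ (∀ m ∈ spectrum ℝ (conn s)⁻¹, |m| ≤ l) ∧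
      2 ≤ Module.finrank ℝ (Module.End.eigenspace (Matrix.toLin' (conn s)⁻¹) l) := by
  refine ⟨24, s0, by decide +kernel, by decide +kernel, ?_, ?_, ?_⟩
  · have : ∀ i, ∀ t ∈ (s0 i).powerset, t.Nonempty → ∃ j, s0 j = t := by decide +kernel
    exact fun i t ht => this i t (Finset.mem_powerset.mpr ht)
  · have : ∀ x : Fin 24, ∃ y, (s0 18 ∩ s0 y).Nonempty ∧ ∃ z, (s0 y ∩ s0 z).Nonempty ∧
        (s0 z ∩ s0 x).Nonempty := by decide +kernel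
    have k : ∀ x y, (s0 x ∩ s0 y).Nonempty →
        (SimpleGraph.fromRel fun i j => (s0 i ∩ s0 j).Nonempty).Reachable x y := by
      intro x y h
      by_cases e : x = y
      · rw [e]
      · exact SimpleGraph.Adj.reachable ⟨e, Or.inl h⟩
    refine (SimpleGraph.connected_iff_exists_forall_reachable _).mpr ⟨18, fun x => ?_⟩
    obtain ⟨y, h1, z, h2, h3⟩ := this x
    exact (k _ _ h1).trans ((k _ _ h2).trans (k _ _ h3))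
  rw [conn_inv, gH.spectrum_real_eq_range_eigenvalues]
  obtain ⟨i0, -, hi0⟩ := Finset.exists_max_image Finset.univ gH.eigenvalues ⟨0, by simp⟩
  obtain ⟨i1, hi1⟩ := big
  have hl := hi1.trans_le (hi0 i1 (by simp))
  have ne : ∀ i, (gH.eigenvectorBasis i).ofLp ≠ 0 := fun i h =>
    gH.eigenvectorBasis.orthonormal.ne_zero i (by ext j; exact congrFun h j)
  refine ⟨gH.eigenvalues i0, ⟨⟨i0, rfl⟩, ?_⟩, ?_, ?_⟩
  · rintro _ ⟨i, rfl⟩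
    exact hi0 i (by simp)
  · rintro _ ⟨i, rfl⟩
    have := low (ne i) (gH.mulVec_eigenvectorBasis i)
    exact abs_le.mpr ⟨by linarith, hi0 i (by simp)⟩
  · by_contra hn
    have hv := gH.mulVec_eigenvectorBasis i0
    have h0 := ne i0
    set v := (gH.eigenvectorBasis i0).ofLp
    set l := gH.eigenvalues i0
    let e : Equiv.Perm (Fin 24) := ⟨rot, fun i => rot (rot i), rot3, rot3⟩
    have hw : g *ᵥ (fun i => v (rot i)) = l • fun i => v (rot i) := by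
      ext i
      have := congrFun hv (rot i)
      simp only [mulVec, dotProduct, Pi.smul_apply] at this ⊢
      rw [← this, ← Equiv.sum_comp e (fun j => g (rot i) j * v j)]
      refine Finset.sum_congr rfl fun j _ => ?_
      simp [e, g, grot]
    have m1 : v ∈ Module.End.eigenspace (Matrix.toLin' g) l := by
      rw [Module.End.mem_eigenspace_iff, toLin'_apply, hv]
    have m2 : (fun i => v (rot i)) ∈ Module.End.eigenspace (Matrix.toLin' g) l := by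
      rw [Module.End.mem_eigenspace_iff, toLin'_apply, hw]
    have h1 : Module.finrank ℝ (Module.End.eigenspace (Matrix.toLin' g) l) = 1 := by
      have : Module.finrank ℝ (Module.End.eigenspace (Matrix.toLin' g) l) ≠ 0 := by
        intro h
        exact h0 (congrArg Subtype.val (finrank_zero_iff_forall_zero.mp h ⟨v, m1⟩))
      omega
    obtain ⟨c, hc⟩ := exists_smul_eq_of_finrank_eq_one h1 (x := ⟨v, m1⟩)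
      (fun h => h0 (congrArg Subtype.val h)) ⟨_, m2⟩
    have hc' : ∀ i, c * v i = v (rot i) := fun i => congrFun (congrArg Subtype.val hc) i
    obtain ⟨i, hi⟩ := Function.ne_iff.mp h0
    have c3 : c ^ 3 = 1 ^ 3 := by
      have : c * (c * (c * v i)) = v i := by rw [hc', hc', hc', rot3]
      apply mul_right_cancel₀ hi
      linear_combination this
    have c1 : c = 1 := (Odd.pow_inj (by decide)).mp c3
    have := symup h0 hv fun i => by rw [← hc', c1, one_mul]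
    linarith

end Pool.Agent.Results.MP_5fc97f_co.Ring
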